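import Pool.Agent.H15.G.R_seed8.TH181.Nag.Pow
import Pool.Agent.H15.G.R_seed8.TH176.Nag.Limit
import Pool.Agent.H15.G.R_seed8.TH819.NagA

/-! Triangle shapes and the moves between them. -/

namespace Pool.Agent.TH181.Nag

open Finset Pool.Agent.TH176.Nag

variable {ι : Type} [Fintype ι] {C : ℝ}

/-- the statement that `C * E < ∑ w` implies emptiness, for all triangles of the shape `(μ, ν)` and
twice the area `E ^ 2` -/
def PS (C : ℝ) (ι : Type) [Fintype ι] (μ ν : ℝ) : Prop :=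
  ∀ (w : ι → ℕ) (E : ℝ), 0 < E → C * E < ∑ i, (w i : ℝ) →
    ∀ α : ℝ, Emp w (Reg α (α + E * √(μ + ν)) μ ν)

theorem PS.mirror {μ ν : ℝ} (h : PS C ι ν μ) : PS C ι μ ν := by
  intro w E hE hw α
  apply Emp_mirror
  have h1 := h w E hE hw (-(α + E * √(μ + ν)))
  rw [add_comm ν μ] at h1
  have e : -(α + E * √(μ + ν)) + E * √(μ + ν) = -α := by ring
  rwa [e] at h1

theorem PS.shear {μ ν : ℝ} (k : ℤ) (h : PS C ι (μ + k) (ν - k)) : PS C ι μ ν := by
  intro w E hE hw α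
  have h1 := h w E hE hw α
  have e : μ + k + (ν - k) = μ + ν := by ring
  rw [e] at h1
  refine h1.comap 1 k 0 1 0 0 (by norm_num) ?_
  rintro ⟨a, b⟩ ⟨hb, hl, hr⟩
  simp only at hb hl hr
  refine ⟨by simpa using hb, ?_, ?_⟩
  · simp only; push_cast; linarith
  · simp only; push_cast; linarith

/-- flattening, the top vertex takes the largest value -/
theorem PS.stepA {μ ν : ℝ} (u v : ℤ) (hc : IsCoprime u v) (hu : 0 ≤ u) (h1 : 0 ≤ u * μ + v)
    (h2 : u * ν ≤ v) (hn : 0 < μ + ν)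
    (h : PS C ι (u * (u * μ + v)) ((v - u * ν) * (u * μ + v) / (μ + ν))) : PS C ι μ ν := by
  intro w E hE hw α
  obtain ⟨p, q, hpq⟩ := hc
  have h3 := h w E hE hw (u * α)
  have e1 : u * (u * μ + v) + (v - u * ν) * (u * μ + v) / (μ + ν) = (u * μ + v) ^ 2 / (μ + ν) := by
    field_simp
    ring
  have hs : 0 < √(μ + ν) := Real.sqrt_pos.2 hn
  have hs2 : √(μ + ν) ^ 2 = μ + ν := Real.sq_sqrt hn.le
  have e2 : √(u * (u * μ + v) + (v - u * ν) * (u * μ + v) / (μ + ν)) = (u * μ + v) / √(μ + ν) := by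
    rw [e1, Real.sqrt_div (sq_nonneg _), Real.sqrt_sq h1]
  rw [e2] at h3
  refine Emp_regA u v p q (by linarith) hu (by linarith) h2 hn rfl ?_ rfl ?_ h3
  · have e3 : E * ((u * μ + v) / √(μ + ν)) * (μ + ν) = E * (u * μ + v) * √(μ + ν) := by
      have e4 : E * ((u * μ + v) / √(μ + ν)) * (μ + ν) =
          E * ((u * μ + v) / √(μ + ν)) * √(μ + ν) ^ 2 := by rw [hs2]
      rw [e4]
      field_simp
    linear_combination e3
  · rw [div_mul_cancel₀ _ hn.ne']; ring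

/-- flattening, the top vertex takes the middle value -/
theorem PS.stepC {μ ν : ℝ} (u v : ℤ) (hc : IsCoprime u v) (hu : 0 ≤ u) (h1 : 0 ≤ u * μ + v)
    (h2 : v ≤ u * ν)
    (h : PS C ι (u * (u * μ + v)) (u * (u * ν - v))) : PS C ι μ ν := by
  intro w E hE hw α
  obtain ⟨p, q, hpq⟩ := hc
  have h3 := h w E hE hw (u * α)
  have hu' : (0 : ℝ) ≤ u := by exact_mod_cast hu
  have e1 : u * (u * μ + v) + u * (u * ν - v) = u ^ 2 * (μ + ν) := by ring
  have e2 : √(u * (u * μ + v) + u * (u * ν - v)) = u * √(μ + ν) := by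
    rw [e1, Real.sqrt_mul (sq_nonneg _), Real.sqrt_sq hu']
  rw [e2] at h3
  refine Emp_regC u v p q (by linarith) hu (by linarith) h2 rfl ?_ rfl rfl h3
  ring

/-- the final case -/
theorem PS.final {μ ν : ℝ} (hμ : 0 ≤ μ) (hν : 0 ≤ ν) (hn : μ + ν = Fintype.card ι) :
    PS (√(Fintype.card ι)) ι μ ν := by
  intro w E hE hw α
  apply Pool.Agent.TH819.NagA.Emp_final w _ _ _ _ hμ hν hn
  rw [hn]
  linarith

/-- right triangles -/
def RT (C : ℝ) (ι : Type) [Fintype ι] (n : ℝ) : Prop := PS C ι 0 n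

theorem RT.inv {n : ℝ} (hn : 0 < n) (h : RT C ι (1 / n)) : RT C ι n := by
  refine PS.stepA 0 1 isCoprime_one_right le_rfl (by norm_num) (by norm_num) (by linarith) ?_
  have e1 : ((0 : ℤ) : ℝ) * (((0 : ℤ) : ℝ) * 0 + ((1 : ℤ) : ℝ)) = 0 := by push_cast; ring
  have e2 : (((1 : ℤ) : ℝ) - ((0 : ℤ) : ℝ) * n) * (((0 : ℤ) : ℝ) * 0 + ((1 : ℤ) : ℝ)) / (0 + n) = 1 / n := by
    push_cast; ring
  rw [e1, e2]
  exact h

/-- every shape flattens to a right triangle -/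
theorem PS.toRT {μ ν : ℝ} (hn : 0 < μ + ν) (h : RT C ι (μ + ν)) : PS C ι μ ν := by
  refine PS.stepA 0 1 isCoprime_one_right le_rfl (by norm_num) (by norm_num) hn ?_
  have e1 : ((0 : ℤ) : ℝ) * (((0 : ℤ) : ℝ) * μ + ((1 : ℤ) : ℝ)) = 0 := by push_cast; ring
  have e2 : (((1 : ℤ) : ℝ) - ((0 : ℤ) : ℝ) * ν) * (((0 : ℤ) : ℝ) * μ + ((1 : ℤ) : ℝ)) / (μ + ν) =
      1 / (μ + ν) := by
    push_cast; ring
  rw [e1, e2]
  apply RT.inv (by positivity)
  rw [one_div_one_div]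
  exact h

theorem RT.mul {n : ℝ} (x : ℕ) (hx : 1 ≤ x) (hxn : 1 ≤ x * n) (h : RT C ι (x ^ 2 * n)) :
    RT C ι n := by
  rcases Nat.lt_or_ge 1 x with h1 | h1
  · refine PS.stepC x 1 isCoprime_one_right (by positivity) (by simp) (by push_cast; linarith) ?_
    refine PS.shear (-x) ?_
    have e1 : (((x : ℕ) : ℤ) : ℝ) * ((((x : ℕ) : ℤ) : ℝ) * 0 + ((1 : ℤ) : ℝ)) + ((-(x : ℤ) : ℤ) : ℝ) = 0 := by
      push_cast; ring
    have e2 : (((x : ℕ) : ℤ) : ℝ) * ((((x : ℕ) : ℤ) : ℝ) * n - ((1 : ℤ) : ℝ)) - ((-(x : ℤ) : ℤ) : ℝ) = x ^ 2 * n := by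
      push_cast; ring
    rw [e1, e2]
    exact h
  · have : x = 1 := by omega
    subst this
    simpa using h

theorem RT.div {n : ℝ} (hn : 0 < n) (x : ℕ) (hx : 1 ≤ x) (hxn : n ≤ x) (h : RT C ι (x ^ 2 / n)) :
    RT C ι n := by
  apply RT.inv hn
  apply RT.mul x hx
  · rw [mul_one_div, le_div_iff₀ hn]; linarith
  · rw [mul_one_div]; exact h

/-- the move from a right triangle of width `W` to width `k W + y / W` -/
theorem RT.move {n : ℝ} (hn : 0 < n) (k y : ℕ) (hc : IsCoprime (k : ℤ) (y : ℤ)) (hk : 0 < k)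
    (h : RT C ι ((k * n + y) ^ 2 / n)) : RT C ι n := by
  apply PS.mirror
  refine PS.stepA k y hc (by positivity) (by positivity) (by push_cast; simp) (by linarith) ?_
  have e : (((k : ℕ) : ℤ) : ℝ) * ((((k : ℕ) : ℤ) : ℝ) * n + (((y : ℕ) : ℤ) : ℝ)) +
      ((((y : ℕ) : ℤ) : ℝ) - (((k : ℕ) : ℤ) : ℝ) * 0) * ((((k : ℕ) : ℤ) : ℝ) * n + (((y : ℕ) : ℤ) : ℝ)) / (n + 0) =
      (k * n + y) ^ 2 / n := by
    push_cast
    field_simp
    ring
  apply PS.toRT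
  · rw [e]
    have : (0 : ℝ) < k := by exact_mod_cast hk
    positivity
  · rw [e]; exact h

theorem kS_Reg {α B M : ℝ} (k : ℕ) : kS (Reg α (α + B) 0 M) k ⊆
    {m | 0 ≤ m.2 ∧ k * α ≤ (m.1 : ℝ) ∧ (m.1 : ℝ) + M * m.2 ≤ k * (α + B)} := by
  induction k with
  | zero =>
    rintro m hm
    have : m = 0 := hm
    subst this
    simp
  | succ k ih =>
    rintro m ⟨p, hp, q, ⟨h1, h2, h3⟩, rfl⟩
    obtain ⟨g1, g2, g3⟩ := ih hp
    refine ⟨?_, ?_, ?_⟩
    · simp only [Prod.snd_add]; omega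
    · simp only [Prod.fst_add]; push_cast; linarith
    · simp only [Prod.fst_add, Prod.snd_add]; push_cast; linarith

/-- the limit of the staircase -/
theorem RT.lim {M : ℕ} (hM : 1 ≤ M) {ω : ℝ} (hω : 2 ≤ ω) (hω2 : ω ^ 2 + 1 = (M + 2) * ω)
    (hC : 0 < C) (h : PS C ι (1 / M) ((ω ^ 2 - 1) / M)) : RT C ι M := by
  intro w E hE hw α
  have hM' : (0 : ℝ) < M := by exact_mod_cast hM
  have hs : 0 < √(M : ℝ) := Real.sqrt_pos.2 hM'
  have hs2 : √(M : ℝ) ^ 2 = M := Real.sq_sqrt hM'.le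
  rw [zero_add]
  -- a slightly larger E'
  obtain ⟨E', hE1, hE2⟩ : ∃ E' : ℝ, E < E' ∧ C * E' < ∑ i, (w i : ℝ) := by
    have h1 : E < (∑ i, (w i : ℝ)) / C := by rw [lt_div_iff₀ hC]; linarith
    obtain ⟨E', h2, h3⟩ := exists_between h1
    refine ⟨E', h2, ?_⟩
    rw [lt_div_iff₀ hC] at h3
    linarith
  obtain ⟨k, hk⟩ := exists_nat_gt (√(M : ℝ) / (E' - E))
  have hd : 0 < E' - E := by linarith
  have hk1 : √(M : ℝ) < k * (E' - E) := by
    rw [div_lt_iff₀ hd] at hk; exact hk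
  have hk0 : 1 ≤ k := by
    by_contra h0
    have : k = 0 := by omega
    subst this
    simp at hk1
    linarith
  have hk0' : (0 : ℝ) < k := by exact_mod_cast hk0
  set e : ℕ := ⌈k * E / √(M : ℝ)⌉₊ with he
  have he1 : k * E / √(M : ℝ) ≤ e := Nat.le_ceil _
  have he2 : (e : ℝ) < k * E / √(M : ℝ) + 1 := Nat.ceil_lt_add_one (by positivity)
  have he3 : (e : ℝ) < k * E' / √(M : ℝ) := by
    have : k * E / √(M : ℝ) + 1 ≤ k * E' / √(M : ℝ) := by
      rw [div_add_one hs.ne', div_le_div_iff_of_pos_right hs]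
      nlinarith
    linarith
  -- emptiness of the weighted plane
  have hWP : Emp (fun i => k * w i) (WP (M + 2) e) := by
    have hN : ((M + 2 : ℕ) : ℝ) - 2 = M := by push_cast; ring
    refine Emp_limit (N := M + 2) (by omega) hω (by push_cast; linarith) he3 ?_
    rw [hN]
    have h1 := h (fun i => k * w i) (k * E') (mul_pos hk0' (by linarith)) (by
      push_cast
      rw [← mul_sum]
      nlinarith) 0
    have h2 : √(1 / (M : ℝ) + (ω ^ 2 - 1) / M) = ω / √(M : ℝ) := by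
      have : (1 / (M : ℝ) + (ω ^ 2 - 1) / M) = ω ^ 2 / M := by field_simp; ring
      rw [this, Real.sqrt_div (sq_nonneg _), Real.sqrt_sq (by linarith)]
    rw [h2, zero_add] at h1
    have h3 : k * E' / √(M : ℝ) * ω = k * E' * (ω / √(M : ℝ)) := by ring
    rw [h3]
    exact h1
  have hEk : k * (E * √(M : ℝ)) ≤ M * e := by
    have h1 : k * E / √(M : ℝ) * M = k * (E * √(M : ℝ)) := by
      have : (M : ℝ) = √(M : ℝ) * √(M : ℝ) := by rw [← sq]; exact hs2.symm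
      field_simp
      rw [hs2]
    rw [← h1, mul_comm]
    exact mul_le_mul_of_nonneg_left he1 hM'.le
  have hS : Emp (fun i => k * w i) {m : ℤ × ℤ | 0 ≤ m.2 ∧ k * α ≤ (m.1 : ℝ) ∧
      (m.1 : ℝ) + M * m.2 ≤ k * (α + E * √(M : ℝ))} := by
    refine hWP.comap 1 0 0 1 (-⌈k * α⌉) 0 (by norm_num) ?_
    rintro ⟨a, b⟩ ⟨h1, h2, h3⟩
    simp only at h1 h2 h3
    have h4 : ⌈k * α⌉ ≤ a := Int.ceil_le.2 h2
    refine ⟨by simp only; omega, by simp only; omega, ?_⟩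
    simp only
    have h5 : (k * α : ℝ) ≤ ⌈k * α⌉ := Int.le_ceil _
    have h6 : ((1 * a + 0 * b + -⌈k * α⌉ + ((M + 2 : ℕ) - 2 : ℤ) * (0 * a + 1 * b + 0) : ℤ) : ℝ) ≤
        (((M + 2 : ℕ) - 2 : ℤ) * (e : ℤ) : ℤ) := by
      push_cast
      have : (k : ℝ) * (α + E * √(M : ℝ)) = k * α + k * (E * √(M : ℝ)) := by ring
      rw [this] at h3
      linarith
    exact_mod_cast h6
  exact Emp_pow k hk0 (kS_Reg k) hS

end Pool.Agent.TH181.Nag
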