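import Pool.Agent.H15.G.R_seed8.TH181.Nag.Key

/-! Every square class is reached. -/

namespace Pool.Agent.TH181.Nag

open Finset Pool.Agent.TH176.Nag

/-- the square class of `D` is reached -/
def Cls (D : ℕ) : Prop := ∃ P : ℕ, 1 ≤ P ∧ ∀ (C : ℝ) (ι : Type) [Fintype ι], 0 < C →
  RT C ι ((P : ℝ) ^ 2 * D) → RT C ι 1

theorem Cls.all {D : ℕ} (hD : 1 ≤ D) (h : Cls D) : ∃ P : ℕ, 1 ≤ P ∧ ∀ t : ℕ, P ≤ t →
    ∀ (C : ℝ) (ι : Type) [Fintype ι], 0 < C → RT C ι ((t : ℝ) ^ 2 * D) → RT C ι 1 := by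
  obtain ⟨P, hP, hP2⟩ := h
  refine ⟨P, hP, fun t ht C ι _ hC h => hP2 C ι hC ?_⟩
  have hP' : (1 : ℝ) ≤ P := by exact_mod_cast hP
  have hD' : (1 : ℝ) ≤ D := by exact_mod_cast hD
  have ht' : (P : ℝ) ≤ t := by exact_mod_cast ht
  apply RT.div (by positivity) (t * P * D) (by
    have h1 : 1 ≤ t := hP.trans ht
    exact Nat.succ_le_of_lt (by positivity))
  · push_cast
    have : (P : ℝ) ^ 2 * D = P * (P * D) := by ring
    rw [this]
    have : (t : ℝ) * P * D = t * (P * D) := by ring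
    rw [this]
    exact mul_le_mul_of_nonneg_right ht' (by positivity)
  · have : (((t * P * D : ℕ) : ℝ)) ^ 2 / ((P : ℝ) ^ 2 * D) = (t : ℝ) ^ 2 * D := by
      push_cast
      have hP0 : (P : ℝ) ≠ 0 := by linarith
      have hD0 : (D : ℝ) ≠ 0 := by linarith
      field_simp
    rw [this]
    exact h

theorem rat_mul {D : ℕ} (hD : 1 ≤ D) {c : ℚ} (hc : 0 < c) : ∃ P : ℕ, 1 ≤ P ∧
    ∀ (C : ℝ) (ι : Type) [Fintype ι], RT C ι ((P : ℝ) ^ 2 * D) → RT C ι ((c : ℝ) ^ 2 * D) := by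
  have hD' : (1 : ℝ) ≤ D := by exact_mod_cast hD
  have big : ∀ c : ℚ, 0 < c → 1 ≤ (c : ℝ) ^ 2 * D → ∃ P : ℕ, 1 ≤ P ∧
    ∀ (C : ℝ) (ι : Type) [Fintype ι], RT C ι ((P : ℝ) ^ 2 * D) → RT C ι ((c : ℝ) ^ 2 * D) := by
    intro c hc h1
    have hnum : 0 < c.num := Rat.num_pos.2 hc
    have hy : ((c.num.toNat : ℕ) : ℝ) = c.num := by
      have : ((c.num.toNat : ℕ) : ℤ) = c.num := Int.toNat_of_nonneg hnum.le
      exact_mod_cast this
    refine ⟨c.num.toNat, by omega, fun C ι _ h => ?_⟩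
    have hden : 1 ≤ c.den := c.den_pos
    have hden' : (1 : ℝ) ≤ c.den := by exact_mod_cast hden
    apply RT.mul c.den hden
    · nlinarith
    · have hk : (c : ℝ) * c.den = c.num := by
        have := Rat.mul_den_eq_num c
        exact_mod_cast this
      have : (c.den : ℝ) ^ 2 * ((c : ℝ) ^ 2 * D) = ((c.num.toNat : ℕ) : ℝ) ^ 2 * D := by
        rw [hy, ← hk]; ring
      rw [this]
      exact h
  rcases le_or_gt 1 ((c : ℝ) ^ 2 * D) with h1 | h1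
  · exact big c hc h1
  · have hcR : (0 : ℝ) < c := by exact_mod_cast hc
    have hpos : 0 < (c : ℝ) ^ 2 * D := by positivity
    have hDQ : (0 : ℚ) < D := by exact_mod_cast hD
    have e : (((1 / (c * D) : ℚ)) : ℝ) ^ 2 * D = 1 / ((c : ℝ) ^ 2 * D) := by
      push_cast
      have hD0 : (D : ℝ) ≠ 0 := by linarith
      field_simp
    obtain ⟨P, hP, hP2⟩ := big (1 / (c * D)) (by positivity) (by
      rw [e, one_le_div hpos]; exact h1.le)
    refine ⟨P, hP, fun C ι _ h => ?_⟩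
    apply RT.inv hpos
    rw [← e]
    exact hP2 C ι h

/-- large solutions of `(D + 1) y ^ 2 = D t ^ 2 + 1` -/
theorem pell (D : ℕ) (k : ℕ) : ∃ y t : ℕ, k ≤ t ∧ 1 ≤ y ∧
    (D + 1) * y ^ 2 = D * t ^ 2 + 1 := by
  induction k with
  | zero => exact ⟨1, 1, by omega, le_rfl, by ring⟩
  | succ k ih =>
    obtain ⟨y, t, h1, h2, h3⟩ := ih
    refine ⟨(2 * D + 1) * y + 2 * D * t, (2 * D + 1) * t + 2 * (D + 1) * y, ?_, ?_, ?_⟩
    · nlinarith
    · nlinarith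
    · have h4 : ((D : ℤ) + 1) * y ^ 2 = D * t ^ 2 + 1 := by exact_mod_cast h3
      have : ((D : ℤ) + 1) * ((2 * D + 1) * y + 2 * D * t) ^ 2 =
          D * ((2 * D + 1) * t + 2 * (D + 1) * y) ^ 2 + 1 := by
        linear_combination h4
      exact_mod_cast this

theorem Cls.succ {D : ℕ} (hD : 1 ≤ D) (h : Cls D) : Cls (D + 1) := by
  obtain ⟨P, hP, hP2⟩ := h.all hD
  obtain ⟨y, t, ht, hy, hyt⟩ := pell D (P + 10)
  have hM : 10 ≤ (2 * t) ^ 2 * D := by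
    have h1 : 10 ≤ 2 * t := by omega
    have h2 : 1 * 10 ≤ (2 * t) ^ 2 * D := by
      calc 1 * 10 ≤ (2 * t) ^ 1 * 1 := by rw [pow_one]; omega
        _ ≤ (2 * t) ^ 2 * D := Nat.mul_le_mul (Nat.pow_le_pow_right (by omega) (by norm_num)) hD
    omega
  obtain ⟨c, hc, hkey⟩ := key hM
  obtain ⟨P', hP', hP2'⟩ := rat_mul (D := D + 1) (by omega) (c := c * (2 * y)) (by
    have : (0 : ℚ) < y := by exact_mod_cast hy
    positivity)
  refine ⟨P', hP', fun C ι _ hC h => ?_⟩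
  apply hP2 (2 * t) (by omega) C ι hC
  have e : (((2 * t : ℕ) : ℝ)) ^ 2 * D = (((2 * t) ^ 2 * D : ℕ) : ℝ) := by push_cast; ring
  rw [e]
  apply hkey C ι hC
  have h3 : ((D : ℝ) + 1) * y ^ 2 = D * t ^ 2 + 1 := by exact_mod_cast hyt
  have e2 : (c : ℝ) ^ 2 * ((((2 * t) ^ 2 * D : ℕ) : ℝ) + 4) =
      ((c * (2 * y) : ℚ) : ℝ) ^ 2 * ((D + 1 : ℕ) : ℝ) := by
    push_cast
    linear_combination (-4 * (c : ℝ) ^ 2) * h3
  rw [e2]
  exact hP2' C ι h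

theorem Cls.of {D : ℕ} (hD : 1 ≤ D) : Cls D := by
  induction D, hD using Nat.le_induction with
  | base => exact ⟨1, le_rfl, fun C ι _ _ h => by simpa using h⟩
  | succ D hD ih => exact ih.succ hD

/-- every square class: exact emptiness of plane systems for `D t ^ 2` points -/
theorem Emp_cls {D : ℕ} (hD : 1 ≤ D) : ∃ t0 : ℕ, 1 ≤ t0 ∧ ∀ t : ℕ, t0 ≤ t → ∀ (ι : Type) [Fintype ι],
    Fintype.card ι = D * t ^ 2 → ∀ (w : ι → ℕ) (e : ℕ), √((D * t ^ 2 : ℕ) : ℝ) * e < ∑ i, (w i : ℝ) →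
    Emp w {m : ℤ × ℤ | 0 ≤ m.1 ∧ 0 ≤ m.2 ∧ m.1 + m.2 ≤ (e : ℤ)} := by
  obtain ⟨P, hP, h⟩ := (Cls.of hD).all hD
  refine ⟨P, hP, fun t ht ι _ hcard w e hw => ?_⟩
  have hpos : 0 < D * t ^ 2 := by
    have : 1 ≤ t := hP.trans ht
    positivity
  have hC : 0 < √((D * t ^ 2 : ℕ) : ℝ) := Real.sqrt_pos.2 (by exact_mod_cast hpos)
  have h1 : RT (√((D * t ^ 2 : ℕ) : ℝ)) ι 1 := by
    apply h t ht _ ι hC
    have h2 := PS.final (ι := ι) (μ := 0) (ν := (t : ℝ) ^ 2 * D) le_rfl (by positivity) (by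
      rw [hcard]; push_cast; ring)
    rw [hcard] at h2
    exact h2
  -- a slightly larger degree
  obtain ⟨E, hE1, hE2⟩ : ∃ E : ℝ, (e : ℝ) < E ∧ √((D * t ^ 2 : ℕ) : ℝ) * E < ∑ i, (w i : ℝ) := by
    have h1 : (e : ℝ) < (∑ i, (w i : ℝ)) / √((D * t ^ 2 : ℕ) : ℝ) := by
      rw [lt_div_iff₀ hC]; linarith
    obtain ⟨E, h2, h3⟩ := exists_between h1
    refine ⟨E, h2, ?_⟩
    rw [lt_div_iff₀ hC] at h3
    linarith
  have hE0 : 0 < E := lt_of_le_of_lt (Nat.cast_nonneg e) hE1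
  refine (h1 w E hE0 hE2 0).mono ?_
  rintro ⟨a, b⟩ ⟨ha, hb, hab⟩
  simp only at ha hb hab
  have ha' : (0 : ℝ) ≤ a := by exact_mod_cast ha
  have hab' : (a : ℝ) + b ≤ e := by exact_mod_cast hab
  refine ⟨hb, ?_, ?_⟩
  · simp only; linarith
  · simp only
    rw [zero_add, zero_add, Real.sqrt_one]
    linarith

end Pool.Agent.TH181.Nag
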