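import Mathlib

/-! Conjugate pairs in a real quadratic field. -/

namespace Pool.Agent.TH181.Nag

/-- `z` and `z'` are conjugate elements of `ℚ(s)` -/
def InK (s z z' : ℝ) : Prop := ∃ p q : ℚ, z = p + q * s ∧ z' = p - q * s

variable {s : ℝ} {m : ℚ}

theorem InK.rat (r : ℚ) : InK s r r := ⟨r, 0, by simp, by simp⟩

theorem InK.nat (n : ℕ) : InK s n n := by
  have := InK.rat (s := s) (n : ℚ)
  simpa using this

theorem InK.int (n : ℤ) : InK s n n := by
  have := InK.rat (s := s) (n : ℚ)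
  simpa using this

theorem InK.gen : InK s s (-s) := ⟨0, 1, by simp, by simp⟩

theorem InK.add {a a' b b' : ℝ} (ha : InK s a a') (hb : InK s b b') : InK s (a + b) (a' + b') := by
  obtain ⟨p, q, rfl, rfl⟩ := ha
  obtain ⟨u, v, rfl, rfl⟩ := hb
  exact ⟨p + u, q + v, by push_cast; ring, by push_cast; ring⟩

theorem InK.sub {a a' b b' : ℝ} (ha : InK s a a') (hb : InK s b b') : InK s (a - b) (a' - b') := by
  obtain ⟨p, q, rfl, rfl⟩ := ha
  obtain ⟨u, v, rfl, rfl⟩ := hb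
  exact ⟨p - u, q - v, by push_cast; ring, by push_cast; ring⟩

theorem InK.mul (hs : s ^ 2 = m) {a a' b b' : ℝ} (ha : InK s a a') (hb : InK s b b') :
    InK s (a * b) (a' * b') := by
  obtain ⟨p, q, rfl, rfl⟩ := ha
  obtain ⟨u, v, rfl, rfl⟩ := hb
  refine ⟨p * u + q * v * m, p * v + q * u, ?_, ?_⟩
  · push_cast; linear_combination (q * v : ℝ) * hs
  · push_cast; linear_combination (q * v : ℝ) * hs

theorem InK.inv (hs : s ^ 2 = m) {a a' : ℝ} (ha : InK s a a') (h0 : a ≠ 0) (h0' : a' ≠ 0) :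
    InK s a⁻¹ a'⁻¹ := by
  obtain ⟨p, q, rfl, rfl⟩ := ha
  have key : ((p : ℝ) + q * s) * (p - q * s) = (p : ℝ) ^ 2 - q ^ 2 * m := by
    linear_combination (-(q : ℝ) ^ 2) * hs
  have e1 : ((p : ℝ) + q * s)⁻¹ = (p - q * s) / ((p : ℝ) ^ 2 - q ^ 2 * m) := by
    rw [← key]; field_simp
  have e2 : ((p : ℝ) - q * s)⁻¹ = (p + q * s) / ((p : ℝ) ^ 2 - q ^ 2 * m) := by
    rw [← key]; field_simp
  refine ⟨p / (p ^ 2 - q ^ 2 * m), -q / (p ^ 2 - q ^ 2 * m), ?_, ?_⟩
  · rw [e1]; push_cast; ring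
  · rw [e2]; push_cast; ring

theorem InK.div (hs : s ^ 2 = m) {a a' b b' : ℝ} (ha : InK s a a') (hb : InK s b b') (h0 : b ≠ 0)
    (h0' : b' ≠ 0) : InK s (a / b) (a' / b') := by
  rw [div_eq_mul_inv, div_eq_mul_inv]
  exact ha.mul hs (hb.inv hs h0 h0')

/-- an element of negative norm -/
theorem neg_norm {M : ℕ} (hM : 1 ≤ M) (hs : s ^ 2 = (M : ℝ) * (M + 4)) {b b' : ℝ}
    (hb : InK s b b') (h0 : 0 < b) (h0' : b' < 0) (hs0 : 0 < s) :
    ∃ k y : ℕ, IsCoprime (k : ℤ) (y : ℤ) ∧ 0 < k ∧ ∃ c : ℚ, 0 < c ∧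
      (k * (b ^ 2 / M) + y) ^ 2 / (b ^ 2 / M) = c ^ 2 * ((M : ℝ) + 4) := by
  obtain ⟨p, q, rfl, rfl⟩ := hb
  have hM' : (0 : ℝ) < M := by exact_mod_cast hM
  have hMQ : (0 : ℚ) < M := by exact_mod_cast hM
  have hq : (0 : ℝ) < q := by
    have : 0 < 2 * ((q : ℝ) * s) := by linarith
    have h1 : 0 < (q : ℝ) * s := by linarith
    exact (mul_pos_iff_of_pos_right hs0).1 h1
  set r : ℚ := -(p ^ 2 - q ^ 2 * (M * (M + 4))) / M with hr
  have hprod : ((p : ℝ) + q * s) * (p - q * s) = -(r * M) := by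
    rw [hr]; push_cast
    field_simp
    linear_combination (-(q : ℝ) ^ 2) * hs
  have hrpos : (0 : ℝ) < r := by
    have h1 : ((p : ℝ) + q * s) * (p - q * s) < 0 := mul_neg_of_pos_of_neg h0 h0'
    rw [hprod] at h1
    have h2 : 0 < (r : ℝ) * M := by linarith
    exact (mul_pos_iff_of_pos_right hM').1 h2
  have hrpos' : 0 < r := by exact_mod_cast hrpos
  have hnum : 0 < r.num := Rat.num_pos.2 hrpos'
  have hk : (r : ℝ) * r.den = r.num := by
    have := Rat.mul_den_eq_num r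
    exact_mod_cast this
  have hy : ((r.num.toNat : ℕ) : ℝ) = r.num := by
    have : ((r.num.toNat : ℕ) : ℤ) = r.num := Int.toNat_of_nonneg hnum.le
    exact_mod_cast this
  refine ⟨r.den, r.num.toNat, ?_, r.den_pos, 2 * r.den * q, ?_, ?_⟩
  · have h1 := r.reduced
    rw [Int.isCoprime_iff_gcd_eq_one, Int.gcd_comm]
    have : ((r.num.toNat : ℕ) : ℤ) = r.num := Int.toNat_of_nonneg hnum.le
    rw [this]
    exact h1
  · have hq' : 0 < q := by exact_mod_cast hq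
    have : (0 : ℚ) < r.den := by exact_mod_cast r.den_pos
    positivity
  · rw [hy, ← hk]
    push_cast
    have hb0 : (p : ℝ) + q * s ≠ 0 := h0.ne'
    rw [div_eq_iff (by positivity)]
    have e1 : (r.den : ℝ) * (((p : ℝ) + q * s) ^ 2 / M) + r * r.den =
        r.den * ((p : ℝ) + q * s) * (2 * q * s) / M := by
      have e2 : (r : ℝ) = -(((p : ℝ) + q * s) * (p - q * s)) / M := by
        rw [hprod]; field_simp
      rw [e2]
      field_simp
      ring
    rw [e1]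
    field_simp
    rw [hs]

end Pool.Agent.TH181.Nag
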