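import Pool.Agent.H15.G.R_seed8.TH181.Nag.Tri
import Pool.Agent.H15.G.R_seed8.TH181.Nag.Quad

/-! From `P(1,1,M)` to the square class of `M + 4`. -/

namespace Pool.Agent.TH181.Nag

open Finset Pool.Agent.TH176.Nag

section
variable {ι : Type} [Fintype ι] {C : ℝ}

/-- a zigzag step -/
theorem PS.zig {n K : ℝ} (v : ℤ) (hn : 0 < n) (hK : K ≤ v)
    (h : PS C ι (n - K + v) ((n - K + v) ^ 2 / n - (n - K + v))) : PS C ι K (n - K) := by
  apply PS.mirror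
  refine PS.stepA 1 v isCoprime_one_left (by norm_num) (by push_cast; linarith)
    (by push_cast; linarith) (by linarith) ?_
  have e1 : ((1 : ℤ) : ℝ) * (((1 : ℤ) : ℝ) * (n - K) + (v : ℝ)) = n - K + v := by push_cast; ring
  have e2 : ((v : ℝ) - ((1 : ℤ) : ℝ) * K) * (((1 : ℤ) : ℝ) * (n - K) + (v : ℝ)) / (n - K + K) =
      (n - K + v) ^ 2 / n - (n - K + v) := by
    push_cast
    have : n - K + K = n := by ring
    rw [this]
    field_simp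
    ring
  rw [e1, e2]
  exact h

end

/-- four zigzags from a right triangle -/
theorem zigs (x : ℝ) (hx : 0 < x) (a c d : ℤ) {K2 n2 K3 n3 K4 n4 K5 n5 : ℝ}
    (hK2 : K2 = x + 1) (hn2 : n2 = K2 ^ 2 / x) (hK3 : K3 = n2 - K2 + a) (hn3 : n3 = K3 ^ 2 / n2)
    (hK4 : K4 = n3 - K3 + c) (hn4 : n4 = K4 ^ 2 / n3) (hK5 : K5 = n4 - K4 + d)
    (hn5 : n5 = K5 ^ 2 / n4) (h2 : K2 ≤ a) (h3 : K3 ≤ c) (h4 : K4 ≤ d) :
    0 < n2 ∧ 0 < K2 ∧ 0 < n3 ∧ 0 < K3 ∧ 0 < n4 ∧ 0 < K4 ∧ 0 < n5 ∧ 0 < K5 ∧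
    ∀ (C : ℝ) (ι : Type) [Fintype ι], RT C ι n5 → RT C ι x := by
  have p2 : 0 < K2 := by rw [hK2]; linarith
  have q2 : 0 < n2 := by rw [hn2]; positivity
  have p3 : 0 < K3 := by rw [hK3]; linarith
  have q3 : 0 < n3 := by rw [hn3]; positivity
  have p4 : 0 < K4 := by rw [hK4]; linarith
  have q4 : 0 < n4 := by rw [hn4]; positivity
  have p5 : 0 < K5 := by rw [hK5]; linarith
  have q5 : 0 < n5 := by rw [hn5]; positivity
  refine ⟨q2, p2, q3, p3, q4, p4, q5, p5, ?_⟩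
  intro C ι _ h
  have g5 : PS C ι K5 (n5 - K5) := by
    apply PS.toRT (by linarith)
    have : K5 + (n5 - K5) = n5 := by ring
    rw [this]; exact h
  have g4 : PS C ι K4 (n4 - K4) := by
    refine PS.zig d q4 h4 ?_
    rw [← hK5, ← hn5]; exact g5
  have g3 : PS C ι K3 (n3 - K3) := by
    refine PS.zig c q3 h3 ?_
    rw [← hK4, ← hn4]; exact g4
  have g2 : PS C ι K2 (n2 - K2) := by
    refine PS.zig a q2 h2 ?_
    rw [← hK3, ← hn3]; exact g3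
  have g1 : PS C ι 0 (x - 0) := by
    refine PS.zig 1 hx (by norm_num) ?_
    have e : x - 0 + ((1 : ℤ) : ℝ) = K2 := by rw [hK2]; push_cast; ring
    rw [e, ← hn2]; exact g2
  rw [sub_zero] at g1
  exact g1

theorem real_side {m x : ℝ} (hm : 10 ≤ m) (hx1 : m + 7 / 2 ≤ x) (hx2 : x ≤ m + 5)
    {K2 n2 K3 n3 K4 : ℝ}
    (hK2 : K2 = x + 1) (hn2 : n2 = K2 ^ 2 / x) (hK3 : K3 = n2 - K2 + (m + 6)) (hn3 : n3 = K3 ^ 2 / n2)
    (hK4 : K4 = n3 - K3 + (m + 8)) : K2 ≤ m + 6 ∧ K3 ≤ m + 8 ∧ K4 ≤ m + 12 := by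
  have hx0 : 0 < x := by linarith
  have hn2K : n2 - K2 = 1 + 1 / x := by
    rw [hn2, hK2]; field_simp; ring
  have h10 : 0 < 1 / x := by positivity
  have h12 : 1 / x ≤ 1 := by rw [div_le_one hx0]; linarith
  have hn2pos : 0 < n2 := by rw [hn2, hK2]; positivity
  refine ⟨by rw [hK2]; linarith, by rw [hK3, hn2K]; linarith, ?_⟩
  have e : n3 - K3 ≤ 4 := by
    have e2 : (m + 6) - K2 ≤ 3 / 2 := by rw [hK2]; linarith
    have e3 : 0 ≤ (m + 6) - K2 := by rw [hK2]; linarith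
    have e4 : K3 = n2 + ((m + 6) - K2) := by rw [hK3]; ring
    have e5 : 1 ≤ n2 := by
      have h11 : 1 ≤ K2 := by rw [hK2]; linarith
      linarith
    rw [hn3, e4, sub_le_iff_le_add, div_le_iff₀ hn2pos]
    set δ := (m + 6) - K2
    have e6 : δ * δ ≤ 3 / 2 * (3 / 2) := mul_le_mul e2 e2 e3 (by norm_num)
    have e7 : n2 * δ ≤ n2 * (3 / 2) := mul_le_mul_of_nonneg_left e2 hn2pos.le
    have e8 : (n2 + δ) ^ 2 = n2 * n2 + 2 * (n2 * δ) + δ * δ := by ring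
    have e9 : (4 + (n2 + δ)) * n2 = 4 * n2 + n2 * n2 + n2 * δ := by ring
    rw [e8, e9]
    linarith
  rw [hK4]; linarith

theorem conj_side {m x y : ℝ} (hm : 10 ≤ m) (hy1 : m ^ 3 ≤ y) (hxy : x = 1 / y)
    {K2 n2 K3 n3 K4 n4 K5 : ℝ}
    (hK2 : K2 = x + 1) (hn2 : n2 = K2 ^ 2 / x) (hK3 : K3 = n2 - K2 + (m + 6)) (hn3 : n3 = K3 ^ 2 / n2)
    (hK4 : K4 = n3 - K3 + (m + 8)) (hn4 : n4 = K4 ^ 2 / n3) (hK5 : K5 = n4 - K4 + (m + 12)) :
    0 < n2 ∧ 0 < K2 ∧ 0 < n3 ∧ 0 < K3 ∧ 0 < n4 ∧ 0 < K4 ∧ K5 < 0 := by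
  have hm2 : 100 ≤ m ^ 2 := by nlinarith
  have hy2 : 100 * m ≤ y := by
    have : 100 * m ≤ m ^ 2 * m := mul_le_mul_of_nonneg_right hm2 (by linarith)
    have e : m ^ 2 * m = m ^ 3 := by ring
    linarith
  have hy3 : 1000 ≤ y := by linarith
  have hy0 : 0 < y := by linarith
  have hinv : 1 / y ≤ 1 / 1000 := one_div_le_one_div_of_le (by norm_num) hy3
  have hinv0 : 0 < 1 / y := by positivity
  have hx0 : 0 < x := by rw [hxy]; exact hinv0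
  have p2 : 0 < K2 := by rw [hK2]; linarith
  have q2 : 0 < n2 := by rw [hn2]; positivity
  have hn2K : n2 - K2 = 1 + y := by
    rw [hn2, hK2, hxy]; field_simp; ring
  have e3' : K3 = 1 + y + (m + 6) := by rw [hK3, hn2K]
  have p3 : 0 < K3 := by rw [e3']; linarith
  have q3 : 0 < n3 := by rw [hn3]; positivity
  have e4' : 2 * (m + 6) ≤ K4 := by
    have e1 : n2 ≤ K3 := by
      rw [hK3, hK2, hxy]; linarith
    have e2 : (m + 6) - K2 ≤ n3 - K3 := by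
      have e3 : n3 - K3 = K3 * ((m + 6) - K2) / n2 := by
        have : (m + 6) - K2 = K3 - n2 := by rw [hK3]; ring
        rw [hn3, this]; field_simp
      rw [e3, le_div_iff₀ q2, mul_comm]
      apply mul_le_mul_of_nonneg_right e1
      rw [hK2, hxy]; linarith
    rw [hK4]
    rw [hK2, hxy] at e2
    linarith
  have p4 : 0 < K4 := by linarith
  have q4 : 0 < n4 := by rw [hn4]; positivity
  refine ⟨q2, p2, q3, p3, q4, p4, ?_⟩
  have e1 : n4 - K4 = - (K4 * (y - 1) / n3) := by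
    have e2 : y - 1 = n3 - K4 := by rw [hK4, e3']; ring
    rw [hn4, e2]; field_simp; ring
  have e2 : n3 ≤ K3 ^ 2 / y := by
    rw [hn3]
    apply div_le_div_of_nonneg_left (by positivity) hy0
    linarith
  have e8 : (m + 12) * (K3 ^ 2 / y) < 2 * (m + 6) * (y - 1) := by
    rw [← mul_div_assoc, div_lt_iff₀ hy0, e3']
    have e9 : 1 + y + (m + 6) ≤ 51 / 50 * y := by linarith
    have e10 : (1 + y + (m + 6)) ^ 2 ≤ (51 / 50 * y) ^ 2 :=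
      pow_le_pow_left₀ (by linarith) e9 2
    have e11 : (m + 12) * (1 + y + (m + 6)) ^ 2 ≤ (m + 12) * (51 / 50 * y) ^ 2 :=
      mul_le_mul_of_nonneg_left e10 (by linarith)
    have e12 : 999 / 1000 * y ≤ y - 1 := by linarith
    have e13 : 2 * (m + 6) * (999 / 1000 * y) * y ≤ 2 * (m + 6) * (y - 1) * y := by
      apply mul_le_mul_of_nonneg_right _ hy0.le
      apply mul_le_mul_of_nonneg_left e12; linarith
    have e14 : (m + 12) * (51 / 50 * y) ^ 2 < 2 * (m + 6) * (999 / 1000 * y) * y := by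
      have h1 : 0 < y ^ 2 := by positivity
      have h2 : (m + 12) * (51 / 50) ^ 2 < 2 * (m + 6) * (999 / 1000) := by linarith
      have h3 := mul_lt_mul_of_pos_right h2 h1
      linarith
    linarith
  have e5 : (m + 12) * n3 < K4 * (y - 1) := by
    have e6 : (m + 12) * n3 ≤ (m + 12) * (K3 ^ 2 / y) := by
      apply mul_le_mul_of_nonneg_left e2; linarith
    have e7 : 2 * (m + 6) * (y - 1) ≤ K4 * (y - 1) := by
      apply mul_le_mul_of_nonneg_right e4'; linarith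
    linarith
  rw [hK5, e1, neg_add_lt_iff_lt_add, add_zero, lt_div_iff₀ q3]
  exact e5

theorem key {M : ℕ} (hM : 10 ≤ M) : ∃ c : ℚ, 0 < c ∧ ∀ (C : ℝ) (ι : Type) [Fintype ι], 0 < C →
    RT C ι (c ^ 2 * ((M : ℝ) + 4)) → RT C ι M := by
  have hm : (10 : ℝ) ≤ M := by exact_mod_cast hM
  set m : ℝ := (M : ℝ) with hmdef
  set s := √(m * (m + 4)) with hsdef
  have hs : s ^ 2 = m * (m + 4) := Real.sq_sqrt (by positivity)
  have hs0 : 0 ≤ s := Real.sqrt_nonneg _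
  have hs1 : m + 1 < s := by nlinarith
  have hs2 : s < m + 2 := by nlinarith
  have hsQ : s ^ 2 = (((M : ℚ) * ((M : ℚ) + 4) : ℚ) : ℝ) := by rw [hs]; push_cast; rfl
  set ω := (m + 2 + s) / 2 with hω
  set ω' := (m + 2 - s) / 2 with hω'
  have hωω' : ω * ω' = 1 := by rw [hω, hω']; linear_combination (-1 / 4) * hs
  have hω2 : ω ^ 2 + 1 = (m + 2) * ω := by rw [hω]; linear_combination (1 / 4) * hs
  have hω1 : m + 3 / 2 ≤ ω := by rw [hω]; linarith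
  have hω3 : ω ≤ m + 2 := by rw [hω]; linarith
  have hωpos : 0 < ω := by linarith
  have hω'pos : 0 < ω' := by rw [hω']; linarith
  have hKω : InK s ω ω' := by
    refine ⟨((M : ℚ) + 2) / 2, 1 / 2, ?_, ?_⟩
    · rw [hω]; push_cast; ring
    · rw [hω']; push_cast; ring
  have hKm : InK s m m := InK.nat M
  -- the real side
  set x := ω ^ 2 / m with hx
  have hmpos : 0 < m := by linarith
  have hx0 : 0 < x := by positivity
  have hx1 : m + 7 / 2 ≤ x := by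
    rw [hx, le_div_iff₀ hmpos]; nlinarith
  have hx2 : x ≤ m + 5 := by
    rw [hx, div_le_iff₀ hmpos]; nlinarith
  set a : ℤ := (M : ℤ) + 6 with ha
  set c : ℤ := (M : ℤ) + 8 with hc
  set d : ℤ := (M : ℤ) + 12 with hd
  have haR : (a : ℝ) = m + 6 := by rw [ha]; push_cast; rfl
  have hcR : (c : ℝ) = m + 8 := by rw [hc]; push_cast; rfl
  have hdR : (d : ℝ) = m + 12 := by rw [hd]; push_cast; rfl
  obtain ⟨K2, hK2⟩ : ∃ K2, K2 = x + 1 := ⟨_, rfl⟩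
  obtain ⟨n2, hn2⟩ : ∃ n2, n2 = K2 ^ 2 / x := ⟨_, rfl⟩
  obtain ⟨K3, hK3⟩ : ∃ K3, K3 = n2 - K2 + a := ⟨_, rfl⟩
  obtain ⟨n3, hn3⟩ : ∃ n3, n3 = K3 ^ 2 / n2 := ⟨_, rfl⟩
  obtain ⟨K4, hK4⟩ : ∃ K4, K4 = n3 - K3 + c := ⟨_, rfl⟩
  obtain ⟨n4, hn4⟩ : ∃ n4, n4 = K4 ^ 2 / n3 := ⟨_, rfl⟩
  obtain ⟨K5, hK5⟩ : ∃ K5, K5 = n4 - K4 + d := ⟨_, rfl⟩
  obtain ⟨n5, hn5⟩ : ∃ n5, n5 = K5 ^ 2 / n4 := ⟨_, rfl⟩
  obtain ⟨h2, h3, h4⟩ : K2 ≤ a ∧ K3 ≤ c ∧ K4 ≤ d := by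
    rw [haR] at hK3 ⊢
    rw [hcR] at hK4 ⊢
    rw [hdR]
    exact real_side hm hx1 hx2 hK2 hn2 hK3 hn3 hK4
  obtain ⟨q2, p2, q3, p3, q4, p4, q5, p5, hch⟩ :=
    zigs x hx0 a c d hK2 hn2 hK3 hn3 hK4 hn4 hK5 hn5 h2 h3 h4
  -- the conjugate side
  set x' := ω' ^ 2 / m with hx'
  have hx'0 : 0 < x' := by positivity
  obtain ⟨K2', hK2'⟩ : ∃ K2', K2' = x' + 1 := ⟨_, rfl⟩
  obtain ⟨n2', hn2'⟩ : ∃ n2', n2' = K2' ^ 2 / x' := ⟨_, rfl⟩
  obtain ⟨K3', hK3'⟩ : ∃ K3', K3' = n2' - K2' + a := ⟨_, rfl⟩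
  obtain ⟨n3', hn3'⟩ : ∃ n3', n3' = K3' ^ 2 / n2' := ⟨_, rfl⟩
  obtain ⟨K4', hK4'⟩ : ∃ K4', K4' = n3' - K3' + c := ⟨_, rfl⟩
  obtain ⟨n4', hn4'⟩ : ∃ n4', n4' = K4' ^ 2 / n3' := ⟨_, rfl⟩
  obtain ⟨K5', hK5'⟩ : ∃ K5', K5' = n4' - K4' + d := ⟨_, rfl⟩
  obtain ⟨y, hy⟩ : ∃ y, y = m * ω ^ 2 := ⟨_, rfl⟩
  have hy0 : 0 < y := by rw [hy]; positivity
  have hxy : x' = 1 / y := by
    rw [hx', hy, div_eq_div_iff hmpos.ne' (by positivity)]
    have : ω' ^ 2 * (m * ω ^ 2) = m * (ω * ω') ^ 2 := by ring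
    rw [this, hωω']; ring
  have hy1 : m ^ 3 ≤ y := by
    rw [hy]
    have h10 : m ^ 2 ≤ ω ^ 2 := pow_le_pow_left₀ (by linarith) (by linarith) 2
    have h11 := mul_le_mul_of_nonneg_left h10 hmpos.le
    have e : m ^ 3 = m * m ^ 2 := by ring
    rw [e]; exact h11
  obtain ⟨q2', p2', q3', p3', q4', p4', hneg⟩ := by
    have hK3'' := hK3'
    have hK4'' := hK4'
    have hK5'' := hK5'
    rw [haR] at hK3''
    rw [hcR] at hK4''
    rw [hdR] at hK5''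
    exact conj_side hm hy1 hxy hK2' hn2' hK3'' hn3' hK4'' hn4' hK5''
  -- the widths
  obtain ⟨b2, hb2⟩ : ∃ b2, b2 = K2 * m / ω := ⟨_, rfl⟩
  obtain ⟨b3, hb3⟩ : ∃ b3, b3 = K3 * m / b2 := ⟨_, rfl⟩
  obtain ⟨b4, hb4⟩ : ∃ b4, b4 = K4 * m / b3 := ⟨_, rfl⟩
  obtain ⟨b5, hb5⟩ : ∃ b5, b5 = K5 * m / b4 := ⟨_, rfl⟩
  obtain ⟨b2', hb2'⟩ : ∃ b2', b2' = K2' * m / ω' := ⟨_, rfl⟩
  obtain ⟨b3', hb3'⟩ : ∃ b3', b3' = K3' * m / b2' := ⟨_, rfl⟩
  obtain ⟨b4', hb4'⟩ : ∃ b4', b4' = K4' * m / b3' := ⟨_, rfl⟩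
  obtain ⟨b5', hb5'⟩ : ∃ b5', b5' = K5' * m / b4' := ⟨_, rfl⟩
  have r2 : 0 < b2 := by rw [hb2]; positivity
  have r3 : 0 < b3 := by rw [hb3]; positivity
  have r4 : 0 < b4 := by rw [hb4]; positivity
  have r5 : 0 < b5 := by rw [hb5]; positivity
  have r2' : 0 < b2' := by rw [hb2']; positivity
  have r3' : 0 < b3' := by rw [hb3']; positivity
  have r4' : 0 < b4' := by rw [hb4']; positivity
  have r5' : b5' < 0 := by
    rw [hb5']
    apply div_neg_of_neg_of_pos _ r4'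
    exact mul_neg_of_neg_of_pos hneg hmpos
  have t1 : ω ^ 2 = m * x := by rw [hx]; field_simp
  have t2 : b2 ^ 2 = m * n2 := by
    rw [hb2, div_pow, t1, hn2]; field_simp
  have t3 : b3 ^ 2 = m * n3 := by
    rw [hb3, div_pow, t2, hn3]; field_simp
  have t4 : b4 ^ 2 = m * n4 := by
    rw [hb4, div_pow, t3, hn4]; field_simp
  have t5 : b5 ^ 2 = m * n5 := by
    rw [hb5, div_pow, t4, hn5]; field_simp
  have hn5b : n5 = b5 ^ 2 / m := by rw [t5]; field_simp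
  -- conjugate pairs
  have k1 : InK s x x' := (InK.div hsQ (by rw [sq, sq]; exact hKω.mul hsQ hKω) hKm hmpos.ne' hmpos.ne')
  have one : InK s 1 1 := by simpa using InK.nat (s := s) 1
  have k2 : InK s K2 K2' := by rw [hK2, hK2']; exact k1.add one
  have l2 : InK s n2 n2' := by
    rw [hn2, hn2', sq, sq]; exact (k2.mul hsQ k2).div hsQ k1 hx0.ne' hx'0.ne'
  have k3 : InK s K3 K3' := by rw [hK3, hK3']; exact (l2.sub k2).add (InK.int a)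
  have l3 : InK s n3 n3' := by
    rw [hn3, hn3', sq, sq]; exact (k3.mul hsQ k3).div hsQ l2 q2.ne' q2'.ne'
  have k4 : InK s K4 K4' := by rw [hK4, hK4']; exact (l3.sub k3).add (InK.int c)
  have l4 : InK s n4 n4' := by
    rw [hn4, hn4', sq, sq]; exact (k4.mul hsQ k4).div hsQ l3 q3.ne' q3'.ne'
  have k5 : InK s K5 K5' := by rw [hK5, hK5']; exact (l4.sub k4).add (InK.int d)
  have j2 : InK s b2 b2' := by
    rw [hb2, hb2']; exact (k2.mul hsQ hKm).div hsQ hKω hωpos.ne' hω'pos.ne'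
  have j3 : InK s b3 b3' := by
    rw [hb3, hb3']; exact (k3.mul hsQ hKm).div hsQ j2 r2.ne' r2'.ne'
  have j4 : InK s b4 b4' := by
    rw [hb4, hb4']; exact (k4.mul hsQ hKm).div hsQ j3 r3.ne' r3'.ne'
  have j5 : InK s b5 b5' := by
    rw [hb5, hb5']; exact (k5.mul hsQ hKm).div hsQ j4 r4.ne' r4'.ne'
  obtain ⟨k, y0, hcop, hk, c0, hc0, hfin⟩ := neg_norm (M := M) (by omega) hs j5 r5 r5' (by linarith)
  refine ⟨c0, hc0, ?_⟩
  intro C ι _ hC h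
  apply RT.lim (by omega) (ω := ω) (by linarith) hω2 hC
  have hsum : 1 / (M : ℝ) + (ω ^ 2 - 1) / M = x := by rw [hx, ← hmdef]; ring
  apply PS.toRT
  · rw [hsum]; exact hx0
  rw [hsum]
  apply hch C ι
  apply RT.move q5 k y0 hcop hk
  rw [hn5b, hfin]
  exact h

end Pool.Agent.TH181.Nag
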