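import Pool.Agent.H15.G.R_seed8.TH181.Nag.Move
import Pool.Agent.H15.G.R_seed8.TH181.Nag.Pow
import Pool.Agent.H15.G.R_seed8.TH176.Nag.Limit

/-! Systems of emptiness predicates closed under the moves. -/

namespace Pool.Agent.TH181.NagM

open Finset Pool.Agent.TH176.Nag Pool.Agent.TH181.Nag

/-- the formal properties of emptiness which are used in the moves: `W` is the type of weights,
`sc k w` the weight `k w`, `P w S` the emptiness for the exponents `S` -/
structure NagSys {W : Type} (sc : ℕ → W → W) (P : W → Set (ℤ × ℤ) → Prop) : Prop where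
  mono : ∀ {w : W} {S S' : Set (ℤ × ℤ)}, P w S' → S ⊆ S' → P w S
  comap : ∀ {w : W} {S S' : Set (ℤ × ℤ)}, P w S' → ∀ a b c d u v : ℤ, a * d - b * c ≠ 0 →
    (∀ m ∈ S, (a * m.1 + b * m.2 + u, c * m.1 + d * m.2 + v) ∈ S') → P w S
  flat0 : ∀ {w : W} {S S' : Set (ℤ × ℤ)}, (∀ (a : ℤ) (B : Finset ℤ), (∀ b ∈ B, ((a, b) : ℤ × ℤ) ∈ S) →
    ∀ k : ℕ, k < B.card → ((a, (k : ℤ)) : ℤ × ℤ) ∈ S') → P w S' → P w S
  Q3 : ∀ {w : W} {N t e : ℕ}, 3 ≤ N → P w (Q3 N (t + 2) e) → P w (WP N e)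
  pow : ∀ {w : W} {S S' : Set (ℤ × ℤ)} (k : ℕ), 1 ≤ k → kS S k ⊆ S' → P (sc k w) S' → P w S

variable {W : Type} {sc : ℕ → W → W} {P : W → Set (ℤ × ℤ) → Prop} {w : W}

/-- emptiness of curves with weights is such a system -/
theorem NagSys.Emp {ι : Type} : NagSys (fun k (w : ι → ℕ) i => k * w i) (fun w S => Emp w S) where
  mono h hS := h.mono hS
  comap h a b c d u v hd hS := h.comap a b c d u v hd hS
  flat0 h h' := Emp_flat0 h h'
  Q3 hN h := Emp_Q3 hN _ _ h
  pow k hk hS h := Emp_pow k hk hS h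

theorem NagSys.flat (hP : NagSys sc P) {S S' : Set (ℤ × ℤ)} (x y u v : ℤ) (hdet : x * u + y * v = 1)
    (hS : ∀ (p : ℤ × ℤ) (T : ℤ) (k : ℕ), p ∈ S → (p.1 - y * T, p.2 + x * T) ∈ S → (k : ℤ) ≤ T →
      (x * p.1 + y * p.2, (k : ℤ)) ∈ S') (h : P w S') : P w S := by
  have h1 : P w {m : ℤ × ℤ | (u * m.1 - y * m.2, v * m.1 + x * m.2) ∈ S} := by
    refine hP.flat0 ?_ h
    intro a B hB k hk
    have hne : B.Nonempty := card_pos.1 (by omega)
    have hmin := hB _ (B.min'_mem hne)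
    have hmax := hB _ (B.max'_mem hne)
    have hcard : B.card ≤ ((B.max' hne) - (B.min' hne) + 1).toNat := by
      have h2 : B ⊆ Finset.Icc (B.min' hne) (B.max' hne) := by
        intro b hb
        rw [Finset.mem_Icc]
        exact ⟨B.min'_le b hb, B.le_max' b hb⟩
      have h3 := card_le_card h2
      rw [Int.card_Icc] at h3
      have e : (B.max' hne) + 1 - (B.min' hne) = (B.max' hne) - (B.min' hne) + 1 := by ring
      rwa [e] at h3
    have h4 := hS (u * a - y * B.min' hne, v * a + x * B.min' hne) (B.max' hne - B.min' hne) k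
      hmin (by
        have e1 : u * a - y * B.min' hne - y * (B.max' hne - B.min' hne) = u * a - y * B.max' hne := by ring
        have e2 : v * a + x * B.min' hne + x * (B.max' hne - B.min' hne) = v * a + x * B.max' hne := by ring
        simp only [e1, e2]
        exact hmax) (by omega)
    have e3 : x * (u * a - y * B.min' hne) + y * (v * a + x * B.min' hne) = a := by
      linear_combination a * hdet
    simp only [e3] at h4
    exact h4
  refine hP.comap h1 x y (-v) u 0 0 (by rw [show x * u - y * -v = x * u + y * v by ring, hdet]; exact one_ne_zero) ?_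
  intro m hm
  show (u * (x * m.1 + y * m.2 + 0) - y * (-v * m.1 + u * m.2 + 0),
    v * (x * m.1 + y * m.2 + 0) + x * (-v * m.1 + u * m.2 + 0)) ∈ S
  have e1 : u * (x * m.1 + y * m.2 + 0) - y * (-v * m.1 + u * m.2 + 0) = m.1 := by
    linear_combination m.1 * hdet
  have e2 : v * (x * m.1 + y * m.2 + 0) + x * (-v * m.1 + u * m.2 + 0) = m.2 := by
    linear_combination m.2 * hdet
  rw [e1, e2]
  exact hm

theorem NagSys.mirror (hP : NagSys sc P) {α β μ ν : ℝ} (h : P w (Reg (-β) (-α) ν μ)) : P w (Reg α β μ ν) := by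
  refine hP.comap h (-1) 0 0 1 0 0 (by norm_num) ?_
  intro m hm
  obtain ⟨h1, h2, h3⟩ := hm
  refine ⟨by simpa using h1, ?_, ?_⟩
  · simp only; push_cast; linarith
  · simp only; push_cast; linarith

/-- the top vertex takes the largest value -/
theorem NagSys.regA (hP : NagSys sc P) {α β μ ν : ℝ} (x y u v : ℤ) (hdet : x * u + y * v = 1) (hx : 0 ≤ x)
    (h1 : 0 ≤ x * μ + y) (h2 : x * ν ≤ y) (hn : 0 < μ + ν) {α' β' μ' ν' : ℝ}
    (hα : α' = x * α) (hβ : β' * (μ + ν) = -(y - x * ν) * α + (y + x * μ) * β)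
    (hμ : μ' = x * (x * μ + y)) (hν : ν' * (μ + ν) = (y - x * ν) * (y + x * μ))
    (h : P w (Reg α' β' μ' ν')) : P w (Reg α β μ ν) := by
  refine hP.flat x y u v hdet ?_ h
  rintro ⟨a, b⟩ T k ⟨hb, hl, hr⟩ ⟨hb', hl', hr'⟩ hk
  simp only at hb hl hr hb' hl' hr'
  push_cast at hl' hr'
  have hx' : (0 : ℝ) ≤ x := by exact_mod_cast hx
  have hb0 : (0 : ℝ) ≤ b := by exact_mod_cast hb
  have hk' : (k : ℝ) ≤ T := by exact_mod_cast hk
  refine ⟨by simp, ?_, ?_⟩
  · simp only
    push_cast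
    rw [hα, hμ]
    have e : (x : ℝ) * a + y * b - (x * α + x * (x * μ + y) * k) =
        x * ((a - y * T) - (α + μ * (b + x * T))) + (x * μ + y) * b + x * (x * μ + y) * (T - k) := by ring
    have p1 : 0 ≤ (x : ℝ) * ((a - y * T) - (α + μ * (b + x * T))) := mul_nonneg hx' (by linarith)
    have p2 : 0 ≤ ((x : ℝ) * μ + y) * b := mul_nonneg h1 hb0
    have p3 : 0 ≤ (x : ℝ) * (x * μ + y) * (T - k) := mul_nonneg (mul_nonneg hx' h1) (by linarith)
    linarith
  · simp only
    push_cast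
    have e : (μ + ν) * (β' - ν' * k - (x * a + y * b)) =
        (y - x * ν) * ((a - y * T) - (α + μ * (b + x * T))) + (y + x * μ) * (β - ν * b - a)
          + (y - x * ν) * (y + x * μ) * (T - k) := by
      linear_combination hβ - k * hν
    have p1 : 0 ≤ ((y : ℝ) - x * ν) * ((a - y * T) - (α + μ * (b + x * T))) :=
      mul_nonneg (by linarith) (by linarith)
    have p2 : 0 ≤ ((y : ℝ) + x * μ) * (β - ν * b - a) := mul_nonneg (by linarith) (by linarith)
    have p3 : 0 ≤ ((y : ℝ) - x * ν) * (y + x * μ) * (T - k) :=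
      mul_nonneg (mul_nonneg (by linarith) (by linarith)) (by linarith)
    have p4 : 0 ≤ (μ + ν) * (β' - ν' * k - (x * a + y * b)) := by rw [e]; linarith
    have p5 := nonneg_of_mul_nonneg_right p4 hn
    linarith

/-- the top vertex takes the middle value -/
theorem NagSys.regC (hP : NagSys sc P) {α β μ ν : ℝ} (x y u v : ℤ) (hdet : x * u + y * v = 1) (hx : 0 ≤ x)
    (h1 : 0 ≤ x * μ + y) (h2 : (y : ℝ) ≤ x * ν) {α' β' μ' ν' : ℝ}
    (hα : α' = x * α) (hβ : β' = x * β)
    (hμ : μ' = x * (x * μ + y)) (hν : ν' = x * (x * ν - y))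
    (h : P w (Reg α' β' μ' ν')) : P w (Reg α β μ ν) := by
  refine hP.flat x y u v hdet ?_ h
  rintro ⟨a, b⟩ T k ⟨hb, hl, hr⟩ ⟨hb', hl', hr'⟩ hk
  simp only at hb hl hr hb' hl' hr'
  push_cast at hl' hr'
  have hx' : (0 : ℝ) ≤ x := by exact_mod_cast hx
  have hb0 : (0 : ℝ) ≤ b := by exact_mod_cast hb
  have hk' : (k : ℝ) ≤ T := by exact_mod_cast hk
  refine ⟨by simp, ?_, ?_⟩
  · simp only
    push_cast
    rw [hα, hμ]
    have e : (x : ℝ) * a + y * b - (x * α + x * (x * μ + y) * k) =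
        x * ((a - y * T) - (α + μ * (b + x * T))) + (x * μ + y) * b + x * (x * μ + y) * (T - k) := by ring
    have p1 : 0 ≤ (x : ℝ) * ((a - y * T) - (α + μ * (b + x * T))) := mul_nonneg hx' (by linarith)
    have p2 : 0 ≤ ((x : ℝ) * μ + y) * b := mul_nonneg h1 hb0
    have p3 : 0 ≤ (x : ℝ) * (x * μ + y) * (T - k) := mul_nonneg (mul_nonneg hx' h1) (by linarith)
    linarith
  · simp only
    push_cast
    rw [hβ, hν]
    have e : (x : ℝ) * β - x * (x * ν - y) * k - (x * a + y * b) =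
        x * (β - ν * (b + x * T) - (a - y * T)) + (x * ν - y) * b + x * (x * ν - y) * (T - k) := by ring
    have p1 : 0 ≤ (x : ℝ) * (β - ν * (b + x * T) - (a - y * T)) := mul_nonneg hx' (by linarith)
    have p2 : 0 ≤ ((x : ℝ) * ν - y) * b := mul_nonneg (by linarith) hb0
    have p3 : 0 ≤ (x : ℝ) * (x * ν - y) * (T - k) := mul_nonneg (mul_nonneg hx' (by linarith)) (by linarith)
    linarith

theorem kS_Reg {α B M : ℝ} (k : ℕ) : kS (Reg α (α + B) 0 M) k ⊆
    {m | 0 ≤ m.2 ∧ k * α ≤ (m.1 : ℝ) ∧ (m.1 : ℝ) + M * m.2 ≤ k * (α + B)} := by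
  induction k with
  | zero =>
    rintro m hm
    have : m = 0 := hm
    subst this
    simp
  | succ k ih =>
    rintro m ⟨p, hp, q, ⟨h1, h2, h3⟩, rfl⟩
    obtain ⟨g1, g2, g3⟩ := ih hp
    refine ⟨?_, ?_, ?_⟩
    · simp only [Prod.snd_add]; omega
    · simp only [Prod.fst_add]; push_cast; linarith
    · simp only [Prod.fst_add, Prod.snd_add]; push_cast; linarith


/-- from the limit triangle to the weighted plane -/
theorem NagSys.limit (hP : NagSys sc P) {N : ℕ} (hN : 3 ≤ N) {ω : ℝ} (hω : 2 ≤ ω)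
    (hω2 : ω ^ 2 + 1 = N * ω) {e : ℕ} {E : ℝ} (hE : (e : ℝ) < E)
    (h : P w (Reg 0 (E * ω) (1 / (N - 2)) ((ω ^ 2 - 1) / (N - 2)))) : P w (WP N e) := by
  have hE0 : 0 < E := lt_of_le_of_lt (Nat.cast_nonneg e) hE
  obtain ⟨t, ht, h1, h2⟩ := gs_ratio hN hω hω2 hE hE0
  obtain ⟨s, rfl⟩ : ∃ s, t = s + 2 := ⟨t - 2, by omega⟩
  apply hP.Q3 hN
  exact hP.mono h (Q3_sub_Reg hN (by linarith) h1 h2)

/-- the shape `(μ, ν)` is good: emptiness for all its triangles of twice the area less than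
`sz w ^ 2` -/
def Shp (P : W → Set (ℤ × ℤ) → Prop) (sz : W → ℝ) (μ ν : ℝ) : Prop :=
  ∀ (w : W) (E : ℝ), 0 < E → E < sz w → ∀ α : ℝ, P w (Reg α (α + E * √(μ + ν)) μ ν)

/-- the good shapes are closed under all moves -/
theorem NagSys.closed (hP : NagSys sc P) {sz : W → ℝ} (hsz : ∀ k w, sz (sc k w) = k * sz w) :
    Closed (Shp P sz) where
  mirror := by
    intro μ ν h w E hE hw α
    apply hP.mirror
    have h1 := h w E hE hw (-(α + E * √(μ + ν)))
    rw [add_comm ν μ] at h1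
    have e : -(α + E * √(μ + ν)) + E * √(μ + ν) = -α := by ring
    rwa [e] at h1
  shear := by
    intro μ ν k h w E hE hw α
    have h1 := h w E hE hw α
    have e : μ + k + (ν - k) = μ + ν := by ring
    rw [e] at h1
    refine hP.comap h1 1 k 0 1 0 0 (by norm_num) ?_
    rintro ⟨a, b⟩ ⟨hb, hl, hr⟩
    simp only at hb hl hr
    refine ⟨by simpa using hb, ?_, ?_⟩
    · simp only; push_cast; linarith
    · simp only; push_cast; linarith
  stepA := by
    intro μ ν u v hc hu h1 h2 hn h w E hE hw α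
    obtain ⟨p, q, hpq⟩ := hc
    have h3 := h w E hE hw (u * α)
    have e1 : u * (u * μ + v) + (v - u * ν) * (u * μ + v) / (μ + ν) = (u * μ + v) ^ 2 / (μ + ν) := by
      field_simp
      ring
    have hs : 0 < √(μ + ν) := Real.sqrt_pos.2 hn
    have hs2 : √(μ + ν) ^ 2 = μ + ν := Real.sq_sqrt hn.le
    have e2 : √(u * (u * μ + v) + (v - u * ν) * (u * μ + v) / (μ + ν)) = (u * μ + v) / √(μ + ν) := by
      rw [e1, Real.sqrt_div (sq_nonneg _), Real.sqrt_sq h1]
    rw [e2] at h3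
    refine hP.regA u v p q (by linarith) hu (by linarith) h2 hn rfl ?_ rfl ?_ h3
    · have e3 : E * ((u * μ + v) / √(μ + ν)) * (μ + ν) = E * (u * μ + v) * √(μ + ν) := by
        have e4 : E * ((u * μ + v) / √(μ + ν)) * (μ + ν) =
            E * ((u * μ + v) / √(μ + ν)) * √(μ + ν) ^ 2 := by rw [hs2]
        rw [e4]
        field_simp
      linear_combination e3
    · rw [div_mul_cancel₀ _ hn.ne']; ring
  stepC := by
    intro μ ν u v hc hu h1 h2 h w E hE hw α
    obtain ⟨p, q, hpq⟩ := hc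
    have h3 := h w E hE hw (u * α)
    have hu' : (0 : ℝ) ≤ u := by exact_mod_cast hu
    have e1 : u * (u * μ + v) + u * (u * ν - v) = u ^ 2 * (μ + ν) := by ring
    have e2 : √(u * (u * μ + v) + u * (u * ν - v)) = u * √(μ + ν) := by
      rw [e1, Real.sqrt_mul (sq_nonneg _), Real.sqrt_sq hu']
    rw [e2] at h3
    refine hP.regC u v p q (by linarith) hu (by linarith) h2 rfl ?_ rfl rfl h3
    ring
  lim := by
    intro M hM ω hω hω2 h w E hE hw α
    have hM' : (0 : ℝ) < M := by exact_mod_cast hM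
    have hs : 0 < √(M : ℝ) := Real.sqrt_pos.2 hM'
    have hs2 : √(M : ℝ) ^ 2 = M := Real.sq_sqrt hM'.le
    rw [zero_add]
    obtain ⟨E', hE1, hE2⟩ : ∃ E' : ℝ, E < E' ∧ E' < sz w := exists_between hw
    obtain ⟨k, hk⟩ := exists_nat_gt (√(M : ℝ) / (E' - E))
    have hd : 0 < E' - E := by linarith
    have hk1 : √(M : ℝ) < k * (E' - E) := by
      rw [div_lt_iff₀ hd] at hk; exact hk
    have hk0 : 1 ≤ k := by
      by_contra h0
      have : k = 0 := by omega
      subst this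
      simp at hk1
      linarith
    have hk0' : (0 : ℝ) < k := by exact_mod_cast hk0
    set e : ℕ := ⌈k * E / √(M : ℝ)⌉₊ with he
    have he1 : k * E / √(M : ℝ) ≤ e := Nat.le_ceil _
    have he2 : (e : ℝ) < k * E / √(M : ℝ) + 1 := Nat.ceil_lt_add_one (by positivity)
    have he3 : (e : ℝ) < k * E' / √(M : ℝ) := by
      have : k * E / √(M : ℝ) + 1 ≤ k * E' / √(M : ℝ) := by
        rw [div_add_one hs.ne', div_le_div_iff_of_pos_right hs]
        nlinarith
      linarith
    have hWP : P (sc k w) (WP (M + 2) e) := by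
      have hN : ((M + 2 : ℕ) : ℝ) - 2 = M := by push_cast; ring
      refine hP.limit (N := M + 2) (by omega) hω (by push_cast; linarith) he3 ?_
      rw [hN]
      have h1 := h (sc k w) (k * E') (mul_pos hk0' (by linarith)) (by
        rw [hsz]
        exact mul_lt_mul_of_pos_left hE2 hk0') 0
      have h2 : √(1 / (M : ℝ) + (ω ^ 2 - 1) / M) = ω / √(M : ℝ) := by
        have : (1 / (M : ℝ) + (ω ^ 2 - 1) / M) = ω ^ 2 / M := by field_simp; ring
        rw [this, Real.sqrt_div (sq_nonneg _), Real.sqrt_sq (by linarith)]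
      rw [h2, zero_add] at h1
      have h3 : k * E' / √(M : ℝ) * ω = k * E' * (ω / √(M : ℝ)) := by ring
      rw [h3]
      exact h1
    have hEk : k * (E * √(M : ℝ)) ≤ M * e := by
      have h1 : k * E / √(M : ℝ) * M = k * (E * √(M : ℝ)) := by
        have : (M : ℝ) = √(M : ℝ) * √(M : ℝ) := by rw [← sq]; exact hs2.symm
        field_simp
        rw [hs2]
      rw [← h1, mul_comm]
      exact mul_le_mul_of_nonneg_left he1 hM'.le
    have hS : P (sc k w) {m : ℤ × ℤ | 0 ≤ m.2 ∧ k * α ≤ (m.1 : ℝ) ∧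
        (m.1 : ℝ) + M * m.2 ≤ k * (α + E * √(M : ℝ))} := by
      refine hP.comap hWP 1 0 0 1 (-⌈k * α⌉) 0 (by norm_num) ?_
      rintro ⟨a, b⟩ ⟨h1, h2, h3⟩
      simp only at h1 h2 h3
      have h4 : ⌈k * α⌉ ≤ a := Int.ceil_le.2 h2
      refine ⟨by simp only; omega, by simp only; omega, ?_⟩
      simp only
      have h5 : (k * α : ℝ) ≤ ⌈k * α⌉ := Int.le_ceil _
      have h6 : ((1 * a + 0 * b + -⌈k * α⌉ + ((M + 2 : ℕ) - 2 : ℤ) * (0 * a + 1 * b + 0) : ℤ) : ℝ) ≤
          (((M + 2 : ℕ) - 2 : ℤ) * (e : ℤ) : ℤ) := by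
        push_cast
        have : (k : ℝ) * (α + E * √(M : ℝ)) = k * α + k * (E * √(M : ℝ)) := by ring
        rw [this] at h3
        linarith
      exact_mod_cast h6
    exact hP.pow k hk0 (kS_Reg k) hS

/-- the consequence for the plane and all weighted planes `P(1, 1, M)`: if for all shapes
`(μ, ν)` with `μ + ν = n`, `μ = 0`, emptiness holds below `sz`, where `n = t ^ 2 D` with `t` large,
then it holds for the right triangle `M` -/
theorem NagSys.cls (hP : NagSys sc P) {sz : W → ℝ} (hsz : ∀ k w, sz (sc k w) = k * sz w)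
    {M D t : ℕ} (h : Mv 0 M 0 ((t : ℝ) ^ 2 * D)) (hfin : Shp P sz 0 ((t : ℝ) ^ 2 * D)) :
    Shp P sz 0 M := h.closed (hP.closed hsz) hfin

end Pool.Agent.TH181.NagM
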